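import Pool.Agent.N64.AF.Defs
import Pool.Agent.N210.NK.Trace

/-!
# A1: traces
-/

set_option autoImplicit false
set_option linter.unusedSectionVars false
set_option linter.unusedVariables false

open CategoryTheory Limits MonoidalCategory Module
open Pool.Agent.Y112.SR Pool.Agent.Y112.KD
open Pool.Agent.Y116.MT (tr)

namespace Pool.Agent.N64.AF

universe v u w t

variable {C : Type u} [Category.{v} C] [Preadditive C] [MonoidalCategory C]
  [MonoidalPreadditive C] [SymmetricCategory C] [RightRigidCategory C]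
  {Λ : Type t} [Field Λ] [CharZero Λ] [Linear Λ C] [MonoidalLinear Λ C]
  {K : Type w} [Field K] [Algebra Λ K] {R : SuperRealisation C K}

namespace A1aux

open Functor.LaxMonoidal Functor.OplaxMonoidal

theorem two_ne (Λ : Type t) [Field Λ] [CharZero Λ] (K : Type w) [Field K] [Algebra Λ K] :
    (2 : K) ≠ 0 := by
  have : CharZero K := charZero_of_injective_algebraMap (algebraMap Λ K).injective
  exact two_ne_zero

omit [MonoidalPreadditive C] [RightRigidCategory C] in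
/-- the supertrace -/
noncomputable def st (R : SuperRealisation C K) {X : C} (a : X ⟶ X) : K :=
  LinearMap.trace K (R.H.obj X) (R.H.map a ≫ R.par X).hom

theorem smul_one_inj {c c' : K}
    (h : c • 𝟙 (𝟙_ (ModuleCat.{w} K)) = c' • 𝟙 (𝟙_ (ModuleCat.{w} K))) : c = c' := by
  have h7 := LinearMap.congr_fun (congrArg ModuleCat.Hom.hom h) (1 : K)
  change c • (1 : K) = c' • (1 : K) at h7
  rwa [smul_eq_mul, smul_eq_mul, mul_one, mul_one] at h7

theorem st_eq (hR : IsReal Λ R) {X : C} (a : X ⟶ X) (q : Λ) (h : tr a = q • 𝟙 (𝟙_ C)) :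
    algebraMap Λ K q = st R a := by
  have h1 := Pool.Agent.N210.NK.real_tr R (two_ne Λ K) a
  rw [h, hR.lin, CategoryTheory.Functor.map_id] at h1
  refine smul_one_inj ?_
  rw [st, ← h1, Linear.smul_comp, Linear.comp_smul, Category.id_comp]
  congr 1
  exact (Functor.Monoidal.ε_η R.H).symm

theorem exq (hR : IsReal Λ R) {X : C} (a : X ⟶ X) : ∃ q : Λ, tr a = q • 𝟙 (𝟙_ C) :=
  hR.unit (tr a)

theorem st_comm (hR : IsReal Λ R) {X Y : C} (a : X ⟶ Y) (b : Y ⟶ X) :
    st R (a ≫ b) = st R (b ≫ a) := by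
  have hX := R.finite X
  have hY := R.finite Y
  have e1 : R.H.map (a ≫ b) ≫ R.par X = R.H.map a ≫ (R.H.map b ≫ R.par X) := by
    rw [Functor.map_comp, Category.assoc]
  have e2 : R.H.map (b ≫ a) ≫ R.par Y = (R.H.map b ≫ R.par X) ≫ R.H.map a := by
    rw [Functor.map_comp, Category.assoc, Category.assoc, R.par_natural a]
  unfold st
  rw [e1, e2, ModuleCat.hom_comp, ModuleCat.hom_comp _ (R.H.map a)]
  exact LinearMap.trace_comp_comm' _ _

theorem st_one (R : SuperRealisation C K) : st R (𝟙 (𝟙_ C)) = 1 := by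
  unfold st
  rw [CategoryTheory.Functor.map_id, Category.id_comp, R.par_unit, ModuleCat.hom_id,
    LinearMap.trace_id]
  have h := (Functor.Monoidal.εIso R.H).toLinearEquiv.finrank_eq
  have h2 : finrank K (R.H.obj (𝟙_ C)) = 1 := by
    rw [← h]
    exact finrank_self K
  rw [h2, Nat.cast_one]

end A1aux

open A1aux

/-- A0: the trace as an element of `Λ`. -/
theorem exists_tau (hR : IsReal Λ R) (X : C) : ∃ τ : (X ⟶ X) →ₗ[Λ] Λ,
    (∀ a : X ⟶ X, tr a = τ a • 𝟙 (𝟙_ C)) ∧ ∀ a : X ⟶ X, algebraMap Λ K (τ a) =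
      LinearMap.trace K (R.H.obj X) (R.H.map a ≫ R.par X).hom := by
  choose q hq using fun a : X ⟶ X => exq hR a
  have hinj := (algebraMap Λ K).injective
  refine ⟨{ toFun := q
            map_add' := fun a b => ?_
            map_smul' := fun c a => ?_ }, hq, fun a => st_eq hR a (q a) (hq a)⟩
  · apply hinj
    rw [st_eq hR _ _ (hq (a + b)), ← st_eq hR (a + b) (q a + q b)]
    rw [tr_add', hq a, hq b, add_smul]
  · apply hinj
    rw [st_eq hR _ _ (hq (c • a)), ← st_eq hR (c • a) (RingHom.id Λ c • q a)]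
    rw [tr_smul', hq a, RingHom.id_apply, smul_eq_mul, mul_smul]

/-- A1 -/
theorem tr_eq_zero_iff (hR : IsReal Λ R) {X : C} (a : X ⟶ X) :
    tr a = 0 ↔ LinearMap.trace K (R.H.obj X) (R.H.map a ≫ R.par X).hom = 0 := by
  constructor
  · intro h
    have h1 := st_eq hR a 0 (by rw [h, zero_smul])
    rw [map_zero] at h1
    exact h1.symm
  · intro h
    obtain ⟨q, hq⟩ := exq hR a
    have h1 := st_eq hR a q hq
    have h2 : algebraMap Λ K q = algebraMap Λ K 0 := by
      rw [h1, map_zero]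
      exact h
    rw [hq, (algebraMap Λ K).injective h2, zero_smul]

/-- A2 -/
theorem tr_comm_zero (hR : IsReal Λ R) {X Y : C} (a : X ⟶ Y) (b : Y ⟶ X) :
    tr (a ≫ b) = 0 ↔ tr (b ≫ a) = 0 := by
  rw [tr_eq_zero_iff hR, tr_eq_zero_iff hR]
  have h := st_comm hR a b
  unfold st at h
  rw [h]

/-- A3 -/
theorem tr_unit (hR : IsReal Λ R) (f : 𝟙_ C ⟶ 𝟙_ C) : tr f = f := by
  have h1 : tr (𝟙 (𝟙_ C)) = 𝟙 (𝟙_ C) := by
    obtain ⟨q, hq⟩ := exq hR (𝟙 (𝟙_ C))
    have h2 := st_eq hR _ q hq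
    rw [st_one, ← map_one (algebraMap Λ K)] at h2
    rw [hq, (algebraMap Λ K).injective h2, one_smul]
  obtain ⟨q, hq⟩ := hR.unit f
  rw [hq, tr_smul', h1]

/-- A4 -/
theorem NumTriv.comp (hR : IsReal Λ R) {W Y Z V : C} {f : Y ⟶ Z} (hf : NumTriv f) (a : W ⟶ Y)
    (b : Z ⟶ V) : NumTriv (a ≫ f ≫ b) := by
  intro g
  have h1 := hf (b ≫ g ≫ a)
  have e1 : (a ≫ f ≫ b) ≫ g = a ≫ (f ≫ b ≫ g) := by simp only [Category.assoc]
  rw [e1, tr_comm_zero hR]
  have e2 : (f ≫ b ≫ g) ≫ a = f ≫ b ≫ g ≫ a := by simp only [Category.assoc]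
  rw [e2]
  exact h1

/-- A7 -/
theorem numTriv_unit_iff (hR : IsReal Λ R) {S : C} (α : 𝟙_ C ⟶ S) :
    NumTriv α ↔ ∀ β : S ⟶ 𝟙_ C, α ≫ β = 0 := by
  constructor
  · intro h β
    rw [← tr_unit hR (α ≫ β)]
    exact h β
  · intro h β
    rw [h β, tr_zero']

/-- A8 -/
theorem finite_num (hR : IsReal Λ R) (Y Z : C) :
    Module.Finite Λ ((Y ⟶ Z) ⧸ numIdeal Λ Y Z) := by
  have hY := R.finite Y
  have hZ := R.finite Z
  obtain ⟨τ, hτ1, hτ2⟩ := exists_tau hR Y
  obtain ⟨b, hb1, hb2, hb3⟩ := exists_linearIndependent K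
    (Set.range fun g : Z ⟶ Y => (R.H.map g).hom)
  have hbf : b.Finite := hb3.setFinite
  have : Finite b := hbf
  choose g hg using fun x : b => hb1 x.2
  let Φ : (Y ⟶ Z) →ₗ[Λ] (b → Λ) := LinearMap.pi fun x => τ ∘ₗ Linear.rightComp Λ Y (g x)
  have hker : LinearMap.ker Φ ≤ numIdeal Λ Y Z := by
    intro f hf
    have h1 : ∀ x : b, st R (f ≫ g x) = 0 := by
      intro x
      have h2 : τ (f ≫ g x) = 0 := congrFun (LinearMap.mem_ker.1 hf) x
      have h3 := hτ2 (f ≫ g x)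
      rw [h2, map_zero] at h3
      exact h3.symm
    let ℓ : (R.H.obj Z →ₗ[K] R.H.obj Y) →ₗ[K] K :=
      LinearMap.trace K (R.H.obj Y) ∘ₗ
        (LinearMap.llcomp K (R.H.obj Y) (R.H.obj Y) (R.H.obj Y) (R.par Y).hom) ∘ₗ
        (LinearMap.lcomp K (R.H.obj Y) (R.H.map f).hom)
    have hℓ : ∀ h : Z ⟶ Y, st R (f ≫ h) = ℓ (R.H.map h).hom := by
      intro h
      unfold st
      rw [Functor.map_comp, ModuleCat.hom_comp, ModuleCat.hom_comp]
      rfl
    have h4 : ∀ G ∈ Submodule.span K (Set.range fun g : Z ⟶ Y => (R.H.map g).hom), ℓ G = 0 := by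
      rw [← hb2]
      intro G hG
      have h5 : Submodule.span K b ≤ LinearMap.ker ℓ := by
        refine Submodule.span_le.2 fun x hx => ?_
        have h6 := h1 ⟨x, hx⟩
        rw [hℓ] at h6
        have h7 : (R.H.map (g ⟨x, hx⟩)).hom = x := hg ⟨x, hx⟩
        rw [h7] at h6
        exact h6
      exact h5 hG
    intro h
    rw [tr_eq_zero_iff hR]
    have h5 := h4 _ (Submodule.subset_span ⟨h, rfl⟩)
    rw [← hℓ] at h5
    exact h5
  have hfin : Module.Finite Λ ((Y ⟶ Z) ⧸ LinearMap.ker Φ) :=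
    Module.Finite.equiv (LinearMap.quotKerEquivRange Φ).symm
  exact Module.Finite.of_surjective (Submodule.factor hker) (Submodule.factor_surjective hker)

end Pool.Agent.N64.AF
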